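import Mathlib

namespace Pool.Agent.Results.MP_104382_al.SquareNotFParadoxical

open Matrix

/-- The plane `ℝ²`. -/
abbrev Plane := Fin 2 → ℝ

/-- The open unit square `(0,1) × (0,1)`. -/
def Q : Set Plane := {v | ∀ i, 0 < v i ∧ v i < 1}

/-- The image of a set `A` under the linear map `v ↦ g v`. -/
def img (g : Matrix.SpecialLinearGroup (Fin 2) ℝ) (A : Set Plane) : Set Plane :=
  (fun v => (g : Matrix (Fin 2) (Fin 2) ℝ) *ᵥ v) '' A

/-- `E` is `G`-paradoxical, for a subgroup `G` of `SL₂(ℝ)` acting linearly on the plane. -/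
def IsParadoxical (G : Subgroup (Matrix.SpecialLinearGroup (Fin 2) ℝ)) (E : Set Plane) : Prop :=
  ∃ (n m : ℕ) (_ : 0 < n) (_ : 0 < m) (A : Fin n → Set Plane) (B : Fin m → Set Plane)
    (g : Fin n → Matrix.SpecialLinearGroup (Fin 2) ℝ) (h : Fin m → Matrix.SpecialLinearGroup (Fin 2) ℝ),
    (∀ i, A i ⊆ E) ∧ (∀ j, B j ⊆ E) ∧
    (∀ i i', i ≠ i' → Disjoint (A i) (A i')) ∧ (∀ j j', j ≠ j' → Disjoint (B j) (B j')) ∧
    (∀ i j, Disjoint (A i) (B j)) ∧ (∀ i, g i ∈ G) ∧ (∀ j, h j ∈ G) ∧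
    E = ⋃ i, img (g i) (A i) ∧ E = ⋃ j, img (h j) (B j)

/-- The matrix `a = (1 2; 0 1)`. -/
def a : Matrix.SpecialLinearGroup (Fin 2) ℝ := ⟨!![1, 2; 0, 1], by simp [Matrix.det_fin_two]⟩

/-- The matrix `b = (1 0; 2 1)`, the transpose of `a`. -/
def b : Matrix.SpecialLinearGroup (Fin 2) ℝ := ⟨!![1, 0; 2, 1], by simp [Matrix.det_fin_two]⟩

/-- The group `F` generated by `a` and `b`. -/
def F : Subgroup (Matrix.SpecialLinearGroup (Fin 2) ℝ) := Subgroup.closure {a, b}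

/-- If some `G`-invariant set meets `E` in a finite nonempty set, `E` is not `G`-paradoxical. -/
theorem not_paradoxical_of_finite (G : Subgroup (Matrix.SpecialLinearGroup (Fin 2) ℝ)) (E T : Set Plane)
    (hT : ∀ g ∈ G, ∀ v ∈ T, (g : Matrix (Fin 2) (Fin 2) ℝ) *ᵥ v ∈ T)
    (hfin : (E ∩ T).Finite) (hne : (E ∩ T).Nonempty) : ¬ IsParadoxical G E := by
  rintro ⟨n, m, -, -, A, B, g, h, hA, hB, hAA, hBB, hAB, hg, hh, hEA, hEB⟩
  have key : ∀ (k : ℕ) (C : Fin k → Set Plane) (c : Fin k → Matrix.SpecialLinearGroup (Fin 2) ℝ),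
      (∀ i, C i ⊆ E) → (∀ i i', i ≠ i' → Disjoint (C i) (C i')) → (∀ i, c i ∈ G) →
      E = ⋃ i, img (c i) (C i) → (E ∩ T).ncard ≤ ((⋃ i, C i) ∩ T).ncard := by
    intro k C c hC hCC hc hE
    have hfin' : ((⋃ i, C i) ∩ T).Finite := by
      apply hfin.subset
      rintro v ⟨hv, hvT⟩
      obtain ⟨i, hi⟩ := Set.mem_iUnion.1 hv
      exact ⟨hC i hi, hvT⟩
    have hsel : ∀ v : Plane, v ∈ E ∩ T → ∃ u ∈ (⋃ i, C i) ∩ T, ∃ i, u ∈ C i ∧
        (c i : Matrix (Fin 2) (Fin 2) ℝ) *ᵥ u = v := by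
      rintro v ⟨hv, hvT⟩
      rw [hE] at hv
      obtain ⟨i, hi⟩ := Set.mem_iUnion.1 hv
      obtain ⟨u, hu, huv⟩ := hi
      refine ⟨u, ⟨Set.mem_iUnion.2 ⟨i, hu⟩, ?_⟩, i, hu, huv⟩
      have h1 := hT (c i)⁻¹ (G.inv_mem (hc i)) v hvT
      have h2 : (((c i)⁻¹ : Matrix.SpecialLinearGroup (Fin 2) ℝ) : Matrix (Fin 2) (Fin 2) ℝ) *ᵥ v = u := by
        rw [← huv]
        change (((c i)⁻¹ : Matrix.SpecialLinearGroup (Fin 2) ℝ) : Matrix (Fin 2) (Fin 2) ℝ) *ᵥ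
          ((c i : Matrix (Fin 2) (Fin 2) ℝ) *ᵥ u) = u
        have h3 : (((c i)⁻¹ : Matrix.SpecialLinearGroup (Fin 2) ℝ) : Matrix (Fin 2) (Fin 2) ℝ) *
            (c i : Matrix (Fin 2) (Fin 2) ℝ) = 1 :=
          congrArg Subtype.val (inv_mul_cancel (c i))
        rw [Matrix.mulVec_mulVec, h3, Matrix.one_mulVec]
      rw [← h2]; exact h1
    choose! f hf hfi using hsel
    apply Set.ncard_le_ncard_of_injOn f (fun v hv => hf v hv) _ hfin'
    intro v hv v' hv' hvv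
    obtain ⟨i, hi, hiv⟩ := hfi v hv
    obtain ⟨i', hi', hiv'⟩ := hfi v' hv'
    have : i = i' := by
      by_contra hne
      exact (Set.disjoint_left.1 (hCC i i' hne)) hi (by rw [hvv]; exact hi')
    subst this
    rw [← hiv, ← hiv', hvv]
  have h1 := key n A g hA hAA hg hEA
  have h2 := key m B h hB hBB hh hEB
  have hdisj : Disjoint ((⋃ i, A i) ∩ T) ((⋃ j, B j) ∩ T) := by
    rw [Set.disjoint_left]
    rintro v ⟨hv, -⟩ ⟨hv', -⟩
    obtain ⟨i, hi⟩ := Set.mem_iUnion.1 hv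
    obtain ⟨j, hj⟩ := Set.mem_iUnion.1 hv'
    exact (Set.disjoint_left.1 (hAB i j)) hi hj
  have hsub : ((⋃ i, A i) ∩ T) ∪ ((⋃ j, B j) ∩ T) ⊆ E ∩ T := by
    rintro v (⟨hv, hvT⟩ | ⟨hv, hvT⟩)
    · obtain ⟨i, hi⟩ := Set.mem_iUnion.1 hv
      exact ⟨hA i hi, hvT⟩
    · obtain ⟨i, hi⟩ := Set.mem_iUnion.1 hv
      exact ⟨hB i hi, hvT⟩
  have h3 := Set.ncard_le_ncard hsub hfin
  rw [Set.ncard_union_eq hdisj (hfin.subset (Set.subset_union_left.trans hsub))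
    (hfin.subset (Set.subset_union_right.trans hsub))] at h3
  have h4 : 0 < (E ∩ T).ncard := (Set.ncard_pos hfin).2 hne
  omega

/-- The lattice `(1/4)ℤ²`. -/
def L : Set Plane := {v | ∃ z : Fin 2 → ℤ, ∀ i, v i = (z i : ℝ) / 4}

theorem F_pres : ∀ g ∈ F, ∀ v ∈ L, (g : Matrix (Fin 2) (Fin 2) ℝ) *ᵥ v ∈ L := by
  intro g hg
  have hint : ∃ M : Matrix (Fin 2) (Fin 2) ℤ, (g : Matrix (Fin 2) (Fin 2) ℝ) =
      M.map (Int.castRingHom ℝ) := by
    refine Subgroup.closure_induction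
      (p := fun (x : Matrix.SpecialLinearGroup (Fin 2) ℝ) _ => ∃ M : Matrix (Fin 2) (Fin 2) ℤ,
      (x : Matrix (Fin 2) (Fin 2) ℝ) = M.map (Int.castRingHom ℝ)) ?_ ?_ ?_ ?_ hg
    · rintro x (rfl | rfl)
      · exact ⟨!![1, 2; 0, 1], by ext i j; fin_cases i <;> fin_cases j <;> simp [a]⟩
      · exact ⟨!![1, 0; 2, 1], by ext i j; fin_cases i <;> fin_cases j <;> simp [b]⟩
    · exact ⟨1, by simp⟩
    · rintro x y - - ⟨M, hM⟩ ⟨N, hN⟩
      refine ⟨M * N, ?_⟩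
      rw [Matrix.map_mul, ← hM, ← hN]
      exact Matrix.SpecialLinearGroup.coe_mul x y
    · rintro x - ⟨M, hM⟩
      refine ⟨M.adjugate, ?_⟩
      have h1 : ((x⁻¹ : Matrix.SpecialLinearGroup (Fin 2) ℝ) : Matrix (Fin 2) (Fin 2) ℝ) =
          Matrix.adjugate (x : Matrix (Fin 2) (Fin 2) ℝ) := Matrix.SpecialLinearGroup.coe_inv x
      refine h1.trans ?_
      rw [hM]
      exact (RingHom.map_adjugate (Int.castRingHom ℝ) M).symm
  obtain ⟨M, hM⟩ := hint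
  rintro v ⟨z, hz⟩
  refine ⟨M *ᵥ z, fun i => ?_⟩
  rw [hM]
  simp only [Matrix.mulVec, dotProduct, Fin.sum_univ_two, Matrix.map_apply, hz]
  push_cast
  simp only [Int.coe_castRingHom]
  ring

theorem finite_QL : (Q ∩ L).Finite := by
  have hsub : Q ∩ L ⊆ (fun z : Fin 2 → ℤ => (fun i => (z i : ℝ) / 4 : Plane)) ''
      (Set.Icc (fun _ => (0 : ℤ)) (fun _ => 4)) := by
    rintro v ⟨hv, z, hz⟩
    refine ⟨z, ⟨fun i => ?_, fun i => ?_⟩, ?_⟩
    · have h1 := (hv i).1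
      rw [hz i] at h1
      have h2 : (0 : ℝ) < z i := by linarith
      have h3 : (0 : ℤ) < z i := by exact_mod_cast h2
      exact h3.le
    · have h1 := (hv i).2
      rw [hz i] at h1
      have h2 : (z i : ℝ) < 4 := by linarith
      have h3 : z i < 4 := by exact_mod_cast h2
      exact h3.le
    · funext i; exact (hz i).symm
  exact ((Set.finite_Icc _ _).image _).subset hsub

/-- The open unit square is not `F`-paradoxical. -/
theorem result : ¬ IsParadoxical F Q := by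
  apply not_paradoxical_of_finite F Q L F_pres finite_QL
  refine ⟨fun _ => 1 / 4, fun i => ⟨by norm_num, by norm_num⟩, fun _ => 1, fun i => by simp⟩

end Pool.Agent.Results.MP_104382_al.SquareNotFParadoxical
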